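import Mathlib

/-!
# A quadratic lower bound for the order of weak-`k`-neighbour-connected graphs

Every weak-`k`-neighbour-connected graph has minimum degree at least `k` and at least
`⌊(k² + 4k - 1)/2⌋` vertices. For `k = 1, 2, 3` this number is `k² + 1`.

For a set `X` with `|X| = k - m`, `1 ≤ m ≤ k`, let `R` be the set of vertices not in `N[X]`. Every
vertex of `R` has at least `m` neighbours in `R`: otherwise take `v ∈ R` with the fewest neighbours
in `R`; the neighbours of `v` in `R` which are not twins of `v` can be dominated from outside `N[v]`,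
so that the twins of `v` form a component, and then one more vertex dominates everything. Removing
the closed neighbourhood of a vertex of `R` gives `|R| ≥ L(m)` by induction on `m`; when `m` is odd
a parity argument gives one more vertex.
-/

set_option autoImplicit false

namespace Pool.Agent.Results.MP_8119db_co.QuadraticLowerBound

/-- The vertices outside `N[X]`: they are not in `X` and have no neighbour in `X`. -/
def remaining {V : Type} (G : SimpleGraph V) (X : Finset V) : Set V :=
  {v | v ∉ X ∧ ∀ x ∈ X, ¬ G.Adj x v}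

/-- `G` is weak-`k`-neighbour-connected: for every set `X` of at most `k - 1` vertices the graph
`G - N[X]` is connected and has at least two vertices. -/
def WeakNC {V : Type} (k : ℕ) (G : SimpleGraph V) : Prop :=
  ∀ X : Finset V, X.card ≤ k - 1 →
    (G.induce (remaining G X)).Connected ∧ 2 ≤ (remaining G X).ncard

/-- The orders of the weak-`k`-neighbour-connected graphs; `p(k)` is the least element. -/
def Orders (k : ℕ) : Set ℕ := {n | ∃ G : SimpleGraph (Fin n), WeakNC k G}

open Classical in
/-- The vertices outside `N[X]`, as a finite set. -/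
noncomputable def R {V : Type} [Fintype V] (G : SimpleGraph V) (X : Finset V) : Finset V :=
  Finset.univ.filter (fun v => v ∈ remaining G X)

section core

open Classical

variable {V : Type} [Fintype V] {G : SimpleGraph V} {k : ℕ}

theorem mem_R {X : Finset V} {v : V} : v ∈ R G X ↔ v ∉ X ∧ ∀ x ∈ X, ¬ G.Adj x v := by
  unfold R
  rw [Finset.mem_filter]
  exact ⟨fun h => h.2, fun h => ⟨Finset.mem_univ _, h⟩⟩

theorem coe_R (X : Finset V) : (R G X : Set V) = remaining G X := by
  ext v; simp [R]

theorem two_le (h : WeakNC k G) {X : Finset V} (hX : X.card ≤ k - 1) : 2 ≤ (R G X).card := by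
  have := (h X hX).2
  rwa [← coe_R, Set.ncard_coe_finset] at this

theorem walk_closed {W : Type} (H : SimpleGraph W) (T : Set W)
    (hT : ∀ a b, H.Adj a b → a ∈ T → b ∈ T) {a b : W} (p : H.Walk a b) (ha : a ∈ T) : b ∈ T := by
  induction p with
  | nil => exact ha
  | cons hadj _ ih => exact ih (hT _ _ hadj ha)

/-- A nonempty subset of `R` closed under adjacency in `R` is all of `R`. -/
theorem closed_all (h : WeakNC k G) {X : Finset V} (hX : X.card ≤ k - 1) (T : Finset V)
    (hT : ∀ a ∈ T, ∀ b ∈ R G X, G.Adj a b → b ∈ T) {v : V} (hv : v ∈ T) (hvR : v ∈ R G X) :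
    R G X ⊆ T := by
  intro w hw
  have hc := (h X hX).1
  have hv' : v ∈ remaining G X := by rw [← coe_R]; exact hvR
  have hw' : w ∈ remaining G X := by rw [← coe_R]; exact hw
  obtain ⟨p⟩ := hc.preconnected ⟨v, hv'⟩ ⟨w, hw'⟩
  refine walk_closed (G.induce (remaining G X)) {x | (x : V) ∈ T} ?_ p hv
  intro a b hab ha
  have hb : (b : V) ∈ R G X := mem_R.2 b.2
  exact hT a ha b hb hab

/-- The neighbours of `v` in `S`. -/
noncomputable def nb (G : SimpleGraph V) (S : Finset V) (v : V) : Finset V :=
  S.filter (fun w => G.Adj v w)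

/-- The closed neighbourhood of `v` in `S`. -/
noncomputable def cnb (G : SimpleGraph V) (S : Finset V) (v : V) : Finset V :=
  S.filter (fun w => w = v ∨ G.Adj v w)

omit [Fintype V] in
theorem card_cnb {S : Finset V} {v : V} (hv : v ∈ S) : (cnb G S v).card = (nb G S v).card + 1 := by
  have : cnb G S v = insert v (nb G S v) := by
    ext w
    simp only [cnb, nb, Finset.mem_filter, Finset.mem_insert]
    constructor
    · rintro ⟨h1, h2 | h2⟩
      · exact Or.inl h2
      · exact Or.inr ⟨h1, h2⟩
    · rintro (rfl | ⟨h1, h2⟩)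
      · exact ⟨hv, Or.inl rfl⟩
      · exact ⟨h1, Or.inr h2⟩
  rw [this, Finset.card_insert_of_notMem]
  simp [nb]

theorem R_insert (X : Finset V) (v : V) (hv : v ∈ R G X) :
    (R G (insert v X)).card + (cnb G (R G X) v).card = (R G X).card := by
  have : R G (insert v X) = (R G X).filter (fun w => ¬ (w = v ∨ G.Adj v w)) := by
    ext w
    simp only [mem_R, Finset.mem_insert, Finset.mem_filter, not_or]
    constructor
    · rintro ⟨⟨h1, h2⟩, h3⟩
      exact ⟨⟨h2, fun x hx => h3 x (Or.inr hx)⟩, h1, h3 v (Or.inl rfl)⟩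
    · rintro ⟨⟨h2, h3⟩, h1, h4⟩
      refine ⟨⟨h1, h2⟩, ?_⟩
      rintro x (rfl | hx)
      · exact h4
      · exact h3 x hx
  rw [this, cnb, add_comm]
  exact Finset.card_filter_add_card_filter_not _

/-- Every vertex of `R` has at least `m` neighbours in `R`. -/
theorem min_degree (h : WeakNC k G) {m : ℕ} {X : Finset V} (hX : X.card + m = k)
    {u : V} (hu : u ∈ R G X) : m ≤ (nb G (R G X) u).card := by
  by_contra hcon
  push Not at hcon
  -- the vertex with the fewest neighbours
  obtain ⟨v, hv, hmin⟩ := Finset.exists_min_image (R G X) (fun v => (nb G (R G X) v).card) ⟨u, hu⟩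
  have hvm : (nb G (R G X) v).card < m := (hmin u hu).trans_lt hcon
  set S := R G X with hS
  -- the twins
  let T : Finset V := S.filter (fun t => cnb G S t = cnb G S v)
  have hvT : v ∈ T := Finset.mem_filter.2 ⟨hv, rfl⟩
  have hTsub : T ⊆ cnb G S v := by
    intro t ht
    have h1 := (Finset.mem_filter.1 ht).2
    have h2 := (Finset.mem_filter.1 ht).1
    rw [← h1]
    exact Finset.mem_filter.2 ⟨h2, Or.inl rfl⟩
  have hout : ∀ w ∈ cnb G S v \ T, ∃ x ∈ S, x ∉ cnb G S v ∧ (x = w ∨ G.Adj w x) := by
    intro w hw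
    obtain ⟨hw1, hw2⟩ := Finset.mem_sdiff.1 hw
    have hwS : w ∈ S := (Finset.mem_filter.1 hw1).1
    have hne : cnb G S w ≠ cnb G S v := fun e => hw2 (Finset.mem_filter.2 ⟨hwS, e⟩)
    have hcard : (cnb G S v).card ≤ (cnb G S w).card := by
      rw [card_cnb hv, card_cnb hwS]
      exact Nat.add_le_add_right (hmin w hwS) 1
    have hns : ¬ cnb G S w ⊆ cnb G S v := fun hsub =>
      hne (Finset.eq_of_subset_of_card_le hsub hcard)
    obtain ⟨x, hx1, hx2⟩ := Finset.not_subset.1 hns
    obtain ⟨hx3, hx4⟩ := Finset.mem_filter.1 hx1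
    exact ⟨x, hx3, hx2, hx4⟩
  choose! f hf1 hf2 hf3 using hout
  let Y : Finset V := (cnb G S v \ T).image f
  have hYcard : Y.card + T.card ≤ (nb G S v).card + 1 := by
    have h1 : Y.card ≤ (cnb G S v \ T).card := Finset.card_image_le
    have h2 := Finset.card_sdiff_add_card_eq_card hTsub
    rw [card_cnb hv] at h2
    omega
  have hTpos : 1 ≤ T.card := Finset.card_pos.2 ⟨v, hvT⟩
  have hXY : (X ∪ Y).card ≤ X.card + Y.card := Finset.card_union_le _ _
  have hXYk : (X ∪ Y).card ≤ k - 1 := by omega
  have hYS : ∀ y ∈ Y, y ∈ S ∧ y ∉ cnb G S v := by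
    intro y hy
    obtain ⟨w, hw, rfl⟩ := Finset.mem_image.1 hy
    exact ⟨hf1 w hw, hf2 w hw⟩
  -- the twins survive
  have hTR : ∀ t ∈ T, t ∈ R G (X ∪ Y) := by
    intro t ht
    obtain ⟨htS, hte⟩ := Finset.mem_filter.1 ht
    have ht' := mem_R.1 (hS ▸ htS)
    rw [mem_R]
    refine ⟨?_, ?_⟩
    · intro hmem
      rcases Finset.mem_union.1 hmem with h1 | h1
      · exact ht'.1 h1
      · exact (hYS t h1).2 (hTsub ht)
    · intro x hx hadj
      rcases Finset.mem_union.1 hx with h1 | h1
      · exact ht'.2 x h1 hadj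
      · have h2 := hYS x h1
        apply h2.2
        rw [← hte]
        exact Finset.mem_filter.2 ⟨h2.1, Or.inr hadj.symm⟩
  -- the other vertices of the closed neighbourhood are dominated
  have hWR : ∀ w ∈ cnb G S v, w ∈ R G (X ∪ Y) → w ∈ T := by
    intro w hw hwR
    by_contra hwT
    have hw' : w ∈ cnb G S v \ T := Finset.mem_sdiff.2 ⟨hw, hwT⟩
    have hfY : f w ∈ X ∪ Y := Finset.mem_union_right _ (Finset.mem_image_of_mem f hw')
    rw [mem_R] at hwR
    rcases hf3 w hw' with h1 | h1
    · rw [h1] at hfY; exact hwR.1 hfY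
    · exact hwR.2 _ hfY h1.symm
  have hRS : R G (X ∪ Y) ⊆ S := by
    intro w hw
    rw [mem_R] at hw
    rw [hS, mem_R]
    exact ⟨fun h1 => hw.1 (Finset.mem_union_left _ h1), fun x hx => hw.2 x (Finset.mem_union_left _ hx)⟩
  have hall : R G (X ∪ Y) ⊆ T := by
    refine closed_all h hXYk T ?_ hvT (hTR v hvT)
    intro a ha b hb hab
    obtain ⟨haS, hae⟩ := Finset.mem_filter.1 ha
    refine hWR b ?_ hb
    rw [← hae]
    exact Finset.mem_filter.2 ⟨hRS hb, Or.inr hab⟩
  have h2 : 2 ≤ T.card := (two_le h hXYk).trans (Finset.card_le_card hall)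
  -- one more vertex dominates everything
  have hk2 : (insert v (X ∪ Y)).card ≤ k - 1 := by
    have := Finset.card_insert_le v (X ∪ Y)
    omega
  have hempty : R G (insert v (X ∪ Y)) = ∅ := by
    rw [Finset.eq_empty_iff_forall_notMem]
    intro w hw
    rw [mem_R] at hw
    have hwR : w ∈ R G (X ∪ Y) := by
      rw [mem_R]
      exact ⟨fun h1 => hw.1 (Finset.mem_insert_of_mem h1),
        fun x hx => hw.2 x (Finset.mem_insert_of_mem hx)⟩
    have hwT := hTsub (hall hwR)
    rcases (Finset.mem_filter.1 hwT).2 with h1 | h1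
    · exact hw.1 (by rw [h1]; exact Finset.mem_insert_self _ _)
    · exact hw.2 v (Finset.mem_insert_self _ _) h1
  have := two_le h hk2
  rw [hempty, Finset.card_empty] at this
  omega

omit [Fintype V] in
/-- Handshake lemma inside `S`. -/
theorem even_sum (S : Finset V) : Even (∑ v ∈ S, (nb G S v).card) := by
  have h1 : ∑ v ∈ S, (nb G S v).card = ((S ×ˢ S).filter (fun p => G.Adj p.1 p.2)).card := by
    rw [Finset.card_filter, Finset.sum_product]
    refine Finset.sum_congr rfl (fun v _ => ?_)
    rw [nb, Finset.card_filter]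
  rw [h1, ← ZMod.natCast_eq_zero_iff_even, Finset.card_eq_sum_ones, Nat.cast_sum]
  refine Finset.sum_involution (fun p _ => (p.2, p.1)) ?_ ?_ ?_ ?_
  · intro p _
    decide
  · intro p hp _ he
    have h2 := (Finset.mem_filter.1 hp).2
    have h3 : p.2 = p.1 := congrArg Prod.fst he
    rw [h3] at h2
    exact G.irrefl h2
  · intro p hp
    obtain ⟨h2, h3⟩ := Finset.mem_filter.1 hp
    rw [Finset.mem_product] at h2
    exact Finset.mem_filter.2 ⟨Finset.mem_product.2 ⟨h2.2, h2.1⟩, h3.symm⟩
  · intro p _
    rfl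

/-- The bound for the number of remaining vertices. -/
theorem bound (h : WeakNC k G) (m : ℕ) : 1 ≤ m → ∀ X : Finset V, X.card + m = k →
    (m ^ 2 + 4 * m - 1) / 2 ≤ (R G X).card := by
  induction m with
  | zero => intro h0; omega
  | succ m ih =>
    intro _ X hX
    rcases Nat.eq_zero_or_pos m with rfl | hm
    · have := two_le h (X := X) (by omega)
      simpa using this
    · -- removing a vertex
      have hstep : ∀ v ∈ R G X, (m ^ 2 + 4 * m - 1) / 2 + (nb G (R G X) v).card + 1 ≤
          (R G X).card := by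
        intro v hv
        have hvX : v ∉ X := (mem_R.1 hv).1
        have h1 := ih hm (insert v X) (by rw [Finset.card_insert_of_notMem hvX]; omega)
        have h2 := R_insert X v hv
        rw [card_cnb hv] at h2
        omega
      have hdeg : ∀ v ∈ R G X, m + 1 ≤ (nb G (R G X) v).card := fun v hv =>
        min_degree h hX hv
      have hne : (R G X).Nonempty := by
        have := two_le h (X := X) (by omega)
        exact Finset.card_pos.1 (by omega)
      obtain ⟨v, hv⟩ := hne
      have hb := hstep v hv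
      have hd := hdeg v hv
      have hsq : (m + 1) ^ 2 = m ^ 2 + 2 * m + 1 := by ring
      rcases Nat.even_or_odd' m with ⟨q, rfl | rfl⟩
      · -- `m + 1` is odd
        by_contra hcon
        push Not at hcon
        have e1 : (2 * q) ^ 2 = 4 * q ^ 2 := by ring
        rw [hsq, e1] at hcon
        rw [e1] at hb
        have hq : 1 ≤ q := by omega
        have hq2 : 1 ≤ q ^ 2 := Nat.one_le_pow _ _ hq
        have hcard : (R G X).card = 2 * q ^ 2 + 6 * q + 1 := by omega
        have hreg : ∀ w ∈ R G X, (nb G (R G X) w).card = 2 * q + 1 := by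
          intro w hw
          have h3 := hstep w hw
          have h4 := hdeg w hw
          rw [e1] at h3
          omega
        have hev := even_sum (G := G) (R G X)
        rw [Finset.sum_congr rfl hreg, Finset.sum_const, hcard, smul_eq_mul] at hev
        have hodd : Odd ((2 * q ^ 2 + 6 * q + 1) * (2 * q + 1)) := by
          apply Odd.mul
          · exact ⟨q ^ 2 + 3 * q, by ring⟩
          · exact ⟨q, rfl⟩
        exact (Nat.not_even_iff_odd.2 hodd) hev
      · have e1 : (2 * q + 1) ^ 2 = 4 * q ^ 2 + 4 * q + 1 := by ring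
        rw [hsq, e1]
        rw [e1] at hb
        omega

end core

/-- Every weak-`k`-neighbour-connected graph `G` (`k ≥ 1`) has minimum degree at least `k` and at
least `⌊(k² + 4k - 1)/2⌋` vertices; hence `p(k) ≥ ⌊(k² + 4k - 1)/2⌋`. -/
theorem result :
    (∀ (k : ℕ), 1 ≤ k → ∀ (V : Type) [Fintype V] (G : SimpleGraph V), WeakNC k G →
      (∀ v : V, k ≤ (G.neighborSet v).ncard) ∧ (k ^ 2 + 4 * k - 1) / 2 ≤ Fintype.card V) ∧
    (∀ k p : ℕ, 1 ≤ k → IsLeast (Orders k) p → (k ^ 2 + 4 * k - 1) / 2 ≤ p) := by
  have main : ∀ (k : ℕ), 1 ≤ k → ∀ (V : Type) [Fintype V] (G : SimpleGraph V), WeakNC k G →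
      (∀ v : V, k ≤ (G.neighborSet v).ncard) ∧ (k ^ 2 + 4 * k - 1) / 2 ≤ Fintype.card V := by
    intro k hk V _ G h
    classical
    have hR : R G ∅ = Finset.univ := by
      ext v; simp [mem_R]
    refine ⟨fun v => ?_, ?_⟩
    · have h1 := min_degree h (X := ∅) (m := k) (by simp) (u := v) (by rw [hR]; exact Finset.mem_univ v)
      rw [hR] at h1
      have h2 : (G.neighborSet v) = (nb G Finset.univ v : Set V) := by
        ext w; simp [nb]
      rw [h2, Set.ncard_coe_finset]
      exact h1
    · have h1 := bound h k hk ∅ (by simp)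
      rwa [hR] at h1
  refine ⟨main, ?_⟩
  rintro k p hk ⟨⟨G, hG⟩, -⟩
  have := (main k hk (Fin p) G hG).2
  rwa [Fintype.card_fin] at this

end Pool.Agent.Results.MP_8119db_co.QuadraticLowerBound
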